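import Pool.Agent.TF2.K.SymF
import Pool.Agent.TF2.O.Int
import Pool.Agent.THF.I.Vk

/-!
# TF2/K-Cl: the symmetric square of a field all of whose quadratic extensions are known
-/

namespace Pool.Agent.TF2

open NumberField IsDedekindDomain Pool.Agent.HWR Pool.Agent.QD Pool.Agent.QD.In Pool.Agent.LD
  Pool.Agent.MD Pool.Agent.THF

/-- Hasse-Weil up to the sign for `K`, exact for the quadratic extensions of `K` -/
def AllQ {T : Finset ℕ} (D : LocData T) (a : ℕ → ℝ) (K : Type) [Field K] [NumberField K] : Prop :=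
  HWpm D a K ∧ ∀ (F : Type) [Field F] [NumberField F] [Algebra K F], Module.finrank K F = 2 →
    D.HW a F

theorem rh_of_pm {T : Finset ℕ} {D : LocData T} {a : ℕ → ℝ} {K : Type} [Field K] [NumberField K]
    (h : HWpm D a K) : RH D a K := by
  obtain ⟨Λ, h1, -, -, h4⟩ := h
  exact ⟨Λ, h1.differentiableOn, h4⟩

/-- a nonempty set of places away from `T` -/
theorem exists_Vne (K : Type) [Field K] [NumberField K] {T : Finset ℕ}
    (hTp : ∀ p ∈ T, p.Prime) : ∃ V : Finset (HeightOneSpectrum (𝓞 K)), V.Nonempty ∧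
      ∀ v ∈ V, Away K T v := by
  obtain ⟨V, h1, h2, -⟩ := exists_V (fun _ => 0) hTp K
  exact ⟨V, h1, h2⟩

/-- the symmetric square of `K`, if the quadratic extensions of `K` satisfy `AllQ` -/
theorem sx_of_allQ {T : Finset ℕ} (hTp : ∀ p ∈ T, p.Prime)
    (hT : ∀ p : ℕ, p.Prime → p < 101 → p ∈ T) (D : LocData T) {a : ℕ → ℝ}
    (ha : ∀ q : ℕ, |a q| ≤ 2 * Real.sqrt q) (hfr : FrobRel T a)
    (K : Type) [Field K] [NumberField K] (hK : AllQ D a K)
    (hq : ∀ (L : Type) [Field L] [NumberField L] [Algebra K L], Module.finrank K L = 2 →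
      AllQ D a L) : SX D a K := by
  obtain ⟨V, hne, hVT⟩ := exists_Vne K hTp
  have H : HWN D a V := fun _ _ L _ _ _ _ hd _ => hK.2 L hd
  have H4 : HWN4 D a V := fun _ _ L _ _ _ _ hd _ E _ _ _ hE => (hq L hd).2 E hE
  have hR : RHq D a K := ⟨rh_of_pm hK.1, fun x hx => rh_of_pm (hq (qf hx).L (qf hx).deg).1⟩
  obtain ⟨T1, S, hS, hST, hV⟩ := exists_S K T hTp (hT 2 Nat.prime_two (by norm_num)) V
  exact symFN hT D ha
    (sn_of hTp hT D ha (sqRel_of_frob K T a hfr) hS hST hV hVT hne H) hR.1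
    (fun y0 => fam2L hTp hT D ha hS hST hV hVT hne H H4 hR y0)

end Pool.Agent.TF2
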