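import Pool.Agent.TF2.K.RX
import Pool.Agent.THF.K.SymN

/-!
# TF2/K-SN: the conclusion of `symN` (THF/K/SymN) as a property of `K` and the set `S`
-/

namespace Pool.Agent.TF2

open NumberField IsDedekindDomain Pool.Agent.HWR Pool.Agent.QD Pool.Agent.QD.In Pool.Agent.LD
  Pool.Agent.MD Pool.Agent.THF

/-- the conclusion of `symN` -/
def SN {T : Finset ℕ} (D : LocData T) (a : ℕ → ℝ) {K : Type} [Field K] [NumberField K]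
    (S : Finset (HeightOneSpectrum (𝓞 K))) : Prop :=
  ∀ x0 : ℝ, 1 / 2 ≤ x0 → (∀ y0 : ℝ, ∃ La : Kˣ → ℂ → ℂ, IsFam D a S x0 y0 1 (fun _ => 1) La) →
    ∃ (N B1 Z : ℂ → ℂ) (A : ℝ), DifferentiableOn ℂ N {s : ℂ | x0 - 1 / 2 < s.re} ∧
      DifferentiableOn ℂ B1 {s : ℂ | 1 / 2 < s.re} ∧ (∀ s : ℂ, 1 / 2 < s.re → B1 s ≠ 0) ∧
      Differentiable ℂ Z ∧ Z 1 ≠ 0 ∧ (∀ w : ℂ, 1 < w.re → Z w = (w - 1) * ZP K w) ∧
      ∀ s : ℂ, A < s.re → x0 - 1 / 2 < s.re → N s = B1 s * ((2 * s - 2) * Z (2 * s - 1)) *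
        (D.Lam a K s * D.Lam a K (s + 1 / 2)) * SP K a T s

theorem sn_of {K : Type} [Field K] [NumberField K] {T : Finset ℕ} (hTp : ∀ p ∈ T, p.Prime)
    (hT : ∀ p : ℕ, p.Prime → p < 101 → p ∈ T) (D : LocData T) {a : ℕ → ℝ}
    (ha : ∀ q : ℕ, |a q| ≤ 2 * Real.sqrt q) (ha2 : SqRel K T a)
    {T1 : Finset ℕ} {S V : Finset (HeightOneSpectrum (𝓞 K))} (hS : Nic T1 S)
    (hST : ∀ v, ¬ Away K T v → v ∈ S) (hV : V ⊆ S) (hVT : ∀ v ∈ V, Away K T v)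
    (hne : V.Nonempty) (H : HWN D a V) : SN D a S :=
  fun _ hx0 hfam => symN hTp hT D ha ha2 hS hST hV hVT hne H hx0 hfam

end Pool.Agent.TF2
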