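import Pool.Agent.TF2.Defs
import Pool.Agent.THF.K.LXa
import Pool.Agent.THF.K.St1

/-!
# TF2/K-RX: the continuations for `K` and its quadratic extensions
-/

namespace Pool.Agent.TF2

open NumberField IsDedekindDomain Pool.Agent.HWR Pool.Agent.QD Pool.Agent.QD.In Pool.Agent.LD
  Pool.Agent.MD Pool.Agent.THF

variable {T : Finset ℕ} (D : LocData T) (a : ℕ → ℝ)

/-- the completed L-functions of `K` and of its quadratic extensions continue to `Re s > 1` -/
def RHq (K : Type) [Field K] [NumberField K] : Prop :=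
  RH D a K ∧ ∀ x : Kˣ, ∀ hx : ¬ IsSquare x, RH D a (qf hx).L

/-- the continuation to `Re s > 1`, and the one of the symmetric square to `Re s > 1/2` -/
def SX (K : Type) [Field K] [NumberField K] : Prop :=
  RH D a K ∧ ∃ N B1 Z : ℂ → ℂ, DifferentiableOn ℂ N {s : ℂ | 1 / 2 < s.re} ∧
      DifferentiableOn ℂ B1 {s : ℂ | 1 / 2 < s.re} ∧ (∀ s : ℂ, 1 / 2 < s.re → B1 s ≠ 0) ∧
      Differentiable ℂ Z ∧ Z 1 ≠ 0 ∧ (∀ w : ℂ, 1 < w.re → Z w = (w - 1) * ZP K w) ∧
      ∀ s : ℂ, 1 < s.re → N s = B1 s * ((2 * s - 2) * Z (2 * s - 1)) *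
        (RF D a K s * RF D a K (s + 1 / 2)) * SP K a T s

/-- integral orders on the central line -/
def IO (K : Type) [Field K] [NumberField K] : Prop :=
  ∀ z : ℂ, z.re = 1 → ∃ k : ℤ, LogO (RF D a K) z k

/-- meromorphic continuation -/
def ME (K : Type) [Field K] [NumberField K] : Prop := ∃ N : ℕ, 0 < N ∧ MERn D a K N

/-- all three -/
def Pk (K : Type) [Field K] [NumberField K] : Prop := SX D a K ∧ IO D a K ∧ ME D a K

variable {D a}

/-- the continuation to `Re s > 1` -/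
theorem RX_specL {K : Type} [Field K] [NumberField K] (hTp : ∀ p ∈ T, p.Prime)
    (hT : ∀ p : ℕ, p.Prime → p < 101 → p ∈ T)
    (ha : ∀ q : ℕ, |a q| ≤ 2 * Real.sqrt q)
    (hR : RHq D a K) (x : Kˣ) :
    DifferentiableOn ℂ (RX D a x) {s : ℂ | 1 < s.re} ∧
      ∀ s : ℂ, 3 / 2 < s.re → RX D a x s = LX D a x s := by
  by_cases hx : IsSquare x
  · have h1 := RF_spec D a hR.1
    have e1 : RX D a x = fun s => RF D a K s ^ 2 := dif_pos hx
    rw [e1]
    refine ⟨h1.1.pow 2, fun s hs => ?_⟩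
    rw [LX_sq D hTp hT ha hx hs, ← h1.2 s hs]
  · have h1 := RF_spec D a (hR.2 x hx)
    have e1 : RX D a x = RF D a (qf hx).L := dif_neg hx
    rw [e1]
    refine ⟨h1.1, fun s hs => ?_⟩
    rw [h1.2 s hs]
    exact (LX_quad D hTp hT ha hx (qf hx).L (qf hx).deg (qf hx).θ (qf hx).sq hs).symm

end Pool.Agent.TF2
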