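import Pool.Agent.THF.K.Unif
import Pool.Agent.TF2.K.RX

/-!
# TF2/K-Fam2: the family for step 2 (`om = 1`, `Re t > 1`)

`La = RX D a` (`RX_specL`).  On a compact `Q ⊆ {1 < Re t, |Im t - y0| < 1}` the functions of the nonsquares are bounded by `unif`
on a closed ball with centre `T0 + y0 i`, `T0` large, which contains `Q`; those of the squares are one continuous function.
-/

namespace Pool.Agent.TF2

open NumberField IsDedekindDomain Pool.Agent.HWR Pool.Agent.QD Pool.Agent.QD.In Pool.Agent.LD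
  Pool.Agent.MD Pool.Agent.THF

private theorem fam2_ball {Q : Set ℂ} (hQ : IsCompact Q) {y0 : ℝ}
    (hs : Q ⊆ {t : ℂ | 1 < t.re ∧ |t.im - y0| < 1}) :
    ∃ (s1 : ℂ) (R R' : ℝ), 3 ≤ s1.re ∧ 0 < R' ∧ R' < R ∧ (∀ t ∈ Metric.ball s1 R, 1 < t.re) ∧
      Q ⊆ Metric.closedBall s1 R' := by
  obtain ⟨e, x2, he, he1, hb⟩ : ∃ e x2 : ℝ, 0 < e ∧ e ≤ 1 ∧ ∀ t ∈ Q, 1 + e ≤ t.re ∧ t.re ≤ x2 := by
    rcases Q.eq_empty_or_nonempty with h | h
    · refine ⟨1, 0, one_pos, le_rfl, fun t ht => ?_⟩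
      rw [h] at ht
      exact absurd ht (Set.notMem_empty t)
    · obtain ⟨t1, ht1, hm⟩ := hQ.exists_isMinOn h Complex.continuous_re.continuousOn
      obtain ⟨t2, _, hM⟩ := hQ.exists_isMaxOn h Complex.continuous_re.continuousOn
      have h1 : 1 < t1.re := (hs ht1).1
      refine ⟨min (t1.re - 1) 1, t2.re, lt_min (by linarith) one_pos, min_le_right _ _, fun t ht => ?_⟩
      have h2 : t1.re ≤ t.re := hm ht
      have h3 : t.re ≤ t2.re := hM ht
      have h4 := min_le_left (t1.re - 1) 1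
      exact ⟨by linarith, h3⟩
  obtain ⟨T0, hT0⟩ : ∃ T0 : ℝ, T0 = 5 + |x2| + 2 / e := ⟨_, rfl⟩
  have hx2 : x2 ≤ |x2| := le_abs_self x2
  have hx20 : 0 ≤ |x2| := abs_nonneg x2
  have h2e : 0 < 2 / e := by positivity
  have h2e' : 2 / e * e = 2 := by field_simp
  refine ⟨⟨T0, y0⟩, T0 - 1, T0 - 1 - e / 2, ?_, by linarith, by linarith, fun t ht => ?_, fun t ht => ?_⟩
  · show 3 ≤ T0
    linarith
  · have h1 : ‖t - ⟨T0, y0⟩‖ < T0 - 1 := by
      rw [← dist_eq_norm]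
      exact Metric.mem_ball.1 ht
    have h2 := (Complex.abs_re_le_norm (t - ⟨T0, y0⟩)).trans_lt h1
    have h3 := (abs_lt.1 h2).1
    have h4 : (t - ⟨T0, y0⟩ : ℂ).re = t.re - T0 := rfl
    rw [h4] at h3
    linarith
  · obtain ⟨h1, h2⟩ := hb t ht
    have h3 : |t.im - y0| < 1 := (hs ht).2
    rw [Metric.mem_closedBall, dist_eq_norm]
    have h4 : ‖t - ⟨T0, y0⟩‖ ^ 2 = (t.re - T0) ^ 2 + (t.im - y0) ^ 2 := by
      rw [Complex.sq_norm, Complex.normSq_apply]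
      have e1 : (t - ⟨T0, y0⟩ : ℂ).re = t.re - T0 := rfl
      have e2 : (t - ⟨T0, y0⟩ : ℂ).im = t.im - y0 := rfl
      rw [e1, e2]
      ring
    have h5 : (t.im - y0) ^ 2 ≤ 1 := by
      have h6 := abs_lt.1 h3
      nlinarith
    have h6 : (t.re - T0) ^ 2 ≤ (T0 - 1 - e) ^ 2 := by
      have a1 : t.re ≤ T0 := by linarith
      have a2 : T0 - t.re ≤ T0 - 1 - e := by linarith
      nlinarith
    have h7 : (T0 - 1 - e) ^ 2 + 1 ≤ (T0 - 1 - e / 2) ^ 2 := by
      have a1 : (T0 - 1 - e / 2) ^ 2 - (T0 - 1 - e) ^ 2 = e * (T0 - 1 - 3 / 4 * e) := by ring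
      have a2 : 1 ≤ e * (T0 - 1 - 3 / 4 * e) := by
        have a3 : 2 / e + 1 ≤ T0 - 1 - 3 / 4 * e := by linarith
        have a4 := mul_le_mul_of_nonneg_left a3 he.le
        have a5 : e * (2 / e + 1) = 2 / e * e + e := by ring
        rw [a5, h2e'] at a4
        linarith
      linarith
    have h8 : 0 ≤ T0 - 1 - e / 2 := by linarith
    refine le_of_sq_le_sq ?_ h8
    rw [h4]
    linarith

theorem fam2L {K : Type} [Field K] [NumberField K] {T : Finset ℕ} (hTp : ∀ p ∈ T, p.Prime)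
    (hT : ∀ p : ℕ, p.Prime → p < 101 → p ∈ T) (D : LocData T) {a : ℕ → ℝ}
    (ha : ∀ q : ℕ, |a q| ≤ 2 * Real.sqrt q) {T1 : Finset ℕ}
    {S V : Finset (HeightOneSpectrum (𝓞 K))} (hS : Nic T1 S)
    (hST : ∀ v, ¬ Away K T v → v ∈ S) (hV : V ⊆ S) (hVT : ∀ v ∈ V, Away K T v)
    (hne : V.Nonempty) (H : HWN D a V) (H4 : HWN4 D a V)
    (hR : RHq D a K) (y0 : ℝ) :
    IsFam D a S 1 y0 1 (fun _ => 1) (RX D a) := by
  have hspec := RX_specL (K := K) hTp hT ha hR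
  refine ⟨one_pos, by norm_num, differentiableOn_const _, fun x => ?_, fun x t _ _ ht => ?_,
    fun Q hQ hs => ?_⟩
  · exact (hspec x).1.mono fun t ht => ht.1
  · rw [(hspec x).2 t ht, one_mul]
  · obtain ⟨s1, R, R', h1, h2, h3, h4, h5⟩ := fam2_ball hQ hs
    obtain ⟨A, C, hA, hC, hb⟩ := unif hTp hT D ha hS hST hV hVT hne H H4 (s1 := s1) (z0 := 0) 0 h1 h2 h3
      (RX D a) (fun x _ => (hspec x).1.mono fun t ht => h4 t ht)
      (fun x _ t _ ht => by rw [pow_zero, one_mul]; exact (hspec x).2 t ht)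
    have hRF := RF_spec D a hR.1
    have hc : ContinuousOn (RF D a K) Q := hRF.1.continuousOn.mono fun t ht => (hs ht).1
    obtain ⟨C2, hC2⟩ := hQ.exists_bound_of_continuousOn hc
    refine ⟨A, C + C2 ^ 2, hA, by positivity, fun x t ht => ?_⟩
    have hodd : (1 : ℝ) ≤ (oddN S x : ℝ) ^ A := by
      have h6 : (1 : ℝ) ≤ (oddN S x : ℝ) := by
        have := oddN_pos (S := S) x
        exact_mod_cast this
      exact Real.one_le_rpow h6 hA
    by_cases hx : IsSquare x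
    · have h6 : RX D a x t = RF D a K t ^ 2 := by
        rw [RX, dif_pos hx]
      rw [h6, norm_pow]
      have h7 : ‖RF D a K t‖ ^ 2 ≤ C2 ^ 2 := pow_le_pow_left₀ (norm_nonneg _) (hC2 t ht) 2
      have h8 : (C + C2 ^ 2) * 1 ≤ (C + C2 ^ 2) * (oddN S x : ℝ) ^ A :=
        mul_le_mul_of_nonneg_left hodd (by positivity)
      linarith
    · refine (hb x hx t (h5 ht)).trans ?_
      refine mul_le_mul_of_nonneg_right ?_ (by linarith)
      have := sq_nonneg C2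
      linarith

end Pool.Agent.TF2
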